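import Pool.Agent.Run7.h385.PQ.Stm

/-!
# Project PQ (helper385), piece DIST: each value is taken rarely
-/

set_option autoImplicit false

namespace Pool.Agent.Run7.h270.PQ

open Finset
open Pool.Agent.Run7.h385.PO
open Pool.Agent.Run7.h385.PQ

lemma dist_fib (d : ℕ) (hd : 2 ≤ d) (Y : Fin d → ℕ) (W n : ℕ) (hW : 1 ≤ W) (hn : 1 ≤ n)
    (hnY : n ^ (d - 1) ≤ Y ⟨0, by omega⟩) (u v : ℤ) :
    ((box Y).filter (fun t => u + ev W t n = v)).card * (Y ⟨d - 1, by omega⟩ * n ^ (d - 1)) ≤ 2 * ∏ j, Y j := by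
  classical
  set i0 : Fin d := ⟨0, by omega⟩ with hi0
  set i1 : Fin d := ⟨d - 1, by omega⟩ with hi1
  have h01 : i0 ≠ i1 := by
    intro h
    have := congrArg Fin.val h
    simp only [hi0, hi1] at this
    omega
  have h10 : i1 ≠ i0 := h01.symm
  set Y' : Fin d → ℕ := Function.update Y i0 (2 * Y i0) with hY'
  set A : Finset (Fin d → ℤ) := (box Y).filter (fun t => u + ev W t n = v) with hA
  have hprod : ∏ j, Y' j = 2 * ∏ j, Y j := by
    rw [hY', Finset.prod_update_of_mem (mem_univ i0), ← Finset.mul_prod_erase univ Y (mem_univ i0), mul_assoc]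
    congr 2
    rw [Finset.sdiff_singleton_eq_erase]
  have hcardb : (box Y').card = ∏ j, Y' j := by
    unfold Pool.Agent.Run7.h385.PO.box
    rw [Fintype.card_piFinset]
    exact prod_congr rfl fun j _ => by simp
  have hcardp : (A ×ˢ ((Ico (0 : ℤ) (Y i1)) ×ˢ (Ico (0 : ℤ) ((n : ℤ) ^ (d - 1))))).card =
      A.card * (Y i1 * n ^ (d - 1)) := by
    rw [card_product, card_product, Int.card_Ico, Int.card_Ico]
    have h1 : ((n : ℤ) ^ (d - 1) - 0).toNat = n ^ (d - 1) := by
      rw [sub_zero]
      have : ((n : ℤ) ^ (d - 1)) = ((n ^ (d - 1) : ℕ) : ℤ) := by push_cast; rfl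
      rw [this, Int.toNat_natCast]
    have h2 : ((Y i1 : ℤ) - 0).toNat = Y i1 := by rw [sub_zero, Int.toNat_natCast]
    rw [h1, h2]
  rw [← hcardp, ← hprod, ← hcardb]
  refine Finset.card_le_card_of_injOn
    (fun x : (Fin d → ℤ) × (ℤ × ℤ) => Function.update (Function.update x.1 i1 x.2.1) i0 (x.1 i0 + x.2.2)) ?_ ?_
  · rintro ⟨t, s, r⟩ hx
    rw [mem_coe, mem_product, mem_product, mem_Ico, mem_Ico, hA, mem_filter] at hx
    obtain ⟨⟨ht, -⟩, hs, hr⟩ := hx
    unfold Pool.Agent.Run7.h385.PO.box at ht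
    rw [Fintype.mem_piFinset] at ht
    unfold Pool.Agent.Run7.h385.PO.box
    rw [mem_coe, Fintype.mem_piFinset]
    intro j
    rw [mem_Ico]
    simp only at ht hs hr ⊢
    have ht0 := ht i0
    rw [mem_Ico] at ht0
    have hnY' : (n : ℤ) ^ (d - 1) ≤ (Y i0 : ℤ) := by exact_mod_cast hnY
    by_cases hj : j = i0
    · rw [hj, Function.update_self, hY', Function.update_self]
      push_cast
      constructor
      · linarith [hr.1, ht0.1]
      · linarith [hr.2, ht0.2]
    · rw [Function.update_of_ne hj, hY', Function.update_of_ne hj]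
      by_cases hj1 : j = i1
      · rw [hj1, Function.update_self]
        exact hs
      · rw [Function.update_of_ne hj1]
        have := ht j
        rw [mem_Ico] at this
        exact this
  · rintro ⟨t, s, r⟩ hx ⟨t', s', r'⟩ hx' hxx
    rw [mem_coe, mem_product, mem_product, mem_Ico, mem_Ico, hA, mem_filter] at hx hx'
    obtain ⟨⟨-, hev⟩, -, hr⟩ := hx
    obtain ⟨⟨-, hev'⟩, -, hr'⟩ := hx'
    simp only at hxx hev hev' hr hr'
    have e0 : t i0 + r = t' i0 + r' := by
      have := congrFun hxx i0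
      rwa [Function.update_self, Function.update_self] at this
    have es : s = s' := by
      have := congrFun hxx i1
      rwa [Function.update_of_ne h10, Function.update_of_ne h10, Function.update_self, Function.update_self] at this
    have ej : ∀ j, j ≠ i0 → j ≠ i1 → t j = t' j := by
      intro j h0 h1
      have := congrFun hxx j
      rwa [Function.update_of_ne h0, Function.update_of_ne h0, Function.update_of_ne h1, Function.update_of_ne h1] at this
    have hsum : ∑ j : Fin d, (t j - t' j) * (n : ℤ) ^ (j : ℕ) = 0 := by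
      have h1 : ev W t n = ev W t' n := by linarith
      unfold ev at h1
      have hW0 : (W : ℤ) ≠ 0 := by
        have : 0 < W := hW
        exact_mod_cast this.ne'
      have h2 := mul_left_cancel₀ hW0 h1
      have h3 : ∑ j : Fin d, (t j - t' j) * (n : ℤ) ^ (j : ℕ) =
          ∑ j : Fin d, t j * (n : ℤ) ^ (j : ℕ) - ∑ j : Fin d, t' j * (n : ℤ) ^ (j : ℕ) := by
        rw [← sum_sub_distrib]
        exact sum_congr rfl fun j _ => by ring
      rw [h3, h2, sub_self]
    rw [Finset.sum_eq_add i0 i1 h01 (fun c _ hc => by rw [ej c hc.1 hc.2, sub_self, zero_mul])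
      (fun h => absurd (mem_univ _) h) (fun h => absurd (mem_univ _) h)] at hsum
    have hN : (0 : ℤ) < (n : ℤ) ^ (d - 1) := by
      have : (0 : ℤ) < n := by exact_mod_cast hn
      positivity
    set N : ℤ := (n : ℤ) ^ (d - 1) with hNdef
    have hv0 : ((i0 : Fin d) : ℕ) = 0 := rfl
    have hv1 : ((i1 : Fin d) : ℕ) = d - 1 := rfl
    simp only [hv0, pow_zero, mul_one] at hsum
    have hdiff : (t i1 - t' i1) * N = r - r' := by linarith
    have h0 : t i1 - t' i1 = 0 := by
      by_contra hne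
      rcases lt_or_gt_of_ne hne with h | h
      · have : (t i1 - t' i1) * N ≤ (-1) * N := mul_le_mul_of_nonneg_right (by omega) hN.le
        linarith [hr.1, hr.2, hr'.1, hr'.2]
      · have : 1 * N ≤ (t i1 - t' i1) * N := mul_le_mul_of_nonneg_right (by omega) hN.le
        linarith [hr.1, hr.2, hr'.1, hr'.2]
    have hr0 : r = r' := by
      rw [h0, zero_mul] at hdiff
      linarith
    have ht : t = t' := by
      funext j
      by_cases hj : j = i0
      · rw [hj]; linarith
      · by_cases hj1 : j = i1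
        · rw [hj1]; linarith
        · exact ej j hj hj1
    rw [ht, es, hr0]

/-- **DIST** -/
theorem t_DIST : S_DIST := by
  intro d hd Y W n hW hn hnY u K G hG hK
  classical
  have hsum : ∑ t ∈ box Y, G (u + ev W t n) =
      ∑ v ∈ Icc (-(K : ℤ)) K, (((box Y).filter (fun t => u + ev W t n = v)).card : ℝ) * G v := by
    rw [← Finset.sum_fiberwise_of_maps_to (g := fun t => u + ev W t n) (t := Icc (-(K : ℤ)) K)
      (fun t ht => by rw [mem_Icc]; exact abs_le.1 (hK t ht))]
    refine sum_congr rfl fun v _ => ?_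
    rw [Finset.sum_congr rfl (fun t ht => by rw [(mem_filter.1 ht).2]), sum_const, nsmul_eq_mul]
  rw [hsum, sum_mul, mul_sum]
  refine sum_le_sum fun v _ => ?_
  have h1 := dist_fib d hd Y W n hW hn hnY u v
  have h2 : (((box Y).filter (fun t => u + ev W t n = v)).card : ℝ) * ((Y ⟨d - 1, by omega⟩ : ℝ) * (n : ℝ) ^ (d - 1)) ≤
      2 * ∏ j, (Y j : ℝ) := by exact_mod_cast h1
  calc (((box Y).filter (fun t => u + ev W t n = v)).card : ℝ) * G v * ((Y ⟨d - 1, by omega⟩ : ℝ) * (n : ℝ) ^ (d - 1))
      = ((((box Y).filter (fun t => u + ev W t n = v)).card : ℝ) * ((Y ⟨d - 1, by omega⟩ : ℝ) * (n : ℝ) ^ (d - 1))) * G v := by ring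
    _ ≤ (2 * ∏ j, (Y j : ℝ)) * G v := mul_le_mul_of_nonneg_right h2 (hG v)

end Pool.Agent.Run7.h270.PQ
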