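import Pool.Agent.Run7.h385.PQ.Stm
import Pool.Agent.H373R2.T7.LamZ2

/-!
# Project PQ (helper385), piece MINZ: minor arcs of the sieve model in short intervals
-/

set_option autoImplicit false

namespace Pool.Agent.Run7.h270.PQ

open Finset
open Pool.Agent.H373R2.T7
open Pool.Agent.H807R2.Dav
open Pool.Agent.Run7.h385.PQ

/-- multiples of `d` in an interval -/
lemma sum_mult_Ioc (N N' d : ℕ) (hd : 1 ≤ d) (G : ℕ → ℂ) :
    ∑ n ∈ (Ioc N N').filter (fun n => d ∣ n), G n = ∑ m ∈ Ioc (N / d) (N' / d), G (d * m) := by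
  symm
  apply sum_bij (fun m _ => d * m)
  · intro m hm
    rw [mem_Ioc] at hm
    rw [mem_filter, mem_Ioc]
    refine ⟨⟨?_, ?_⟩, dvd_mul_right _ _⟩
    · have := (Nat.div_lt_iff_lt_mul hd).1 hm.1
      rwa [mul_comm] at this
    · calc d * m ≤ d * (N' / d) := Nat.mul_le_mul_left _ hm.2
        _ ≤ N' := Nat.mul_div_le _ _
  · intro a _ b _ h
    exact Nat.eq_of_mul_eq_mul_left hd h
  · intro n hn
    rw [mem_filter, mem_Ioc] at hn
    obtain ⟨m, rfl⟩ := hn.2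
    refine ⟨m, ?_, rfl⟩
    rw [mem_Ioc]
    constructor
    · rw [Nat.div_lt_iff_lt_mul hd]
      linarith [mul_comm d m]
    · rw [Nat.le_div_iff_mul_le hd]
      linarith [mul_comm d m]
  · intro m _; rfl

/-- the number of the multiples of `d` in an interval -/
lemma card_mult_Ioc (N S d : ℕ) (hd : 1 ≤ d) :
    (((Ioc N (N + S)).filter (fun n => d ∣ n)).card : ℝ) ≤ S / d + 1 ∧
    (((N + S) / d : ℕ) : ℝ) - ((N / d : ℕ) : ℝ) ≤ S / d + 1 := by
  have hd0 : (0 : ℝ) < d := by exact_mod_cast hd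
  have h1 : (((N + S) / d : ℕ) : ℝ) ≤ ((N : ℝ) + S) / d := by
    refine Nat.cast_div_le.trans ?_
    push_cast
    exact le_rfl
  have h2 : (N : ℝ) / d < ((N / d : ℕ) : ℝ) + 1 := by
    rw [div_lt_iff₀ hd0]
    have := Nat.lt_div_mul_add (a := N) (b := d) hd
    have h3 : (N : ℝ) < (((N / d : ℕ) : ℝ)) * d + d := by exact_mod_cast this
    linarith
  have h3 : (((N + S) / d : ℕ) : ℝ) - ((N / d : ℕ) : ℝ) ≤ S / d + 1 := by
    rw [add_div] at h1
    linarith
  refine ⟨?_, h3⟩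
  have h4 := sum_mult_Ioc N (N + S) d hd (fun _ => 1)
  rw [sum_const, sum_const, Nat.card_Ioc, nsmul_eq_mul, nsmul_eq_mul, mul_one, mul_one] at h4
  have h5 : ((Ioc N (N + S)).filter (fun n => d ∣ n)).card = (N + S) / d - N / d := by exact_mod_cast h4
  rw [h5, Nat.cast_sub (Nat.div_le_div_right (Nat.le_add_right N S))]
  exact h3

/-- **MINZ** -/
theorem t_MINZ : S_MINZ := by
  intro E U
  obtain ⟨N0, h0⟩ := choice 1 E (U + 2) 8
  obtain ⟨n1, h1⟩ := ev_log' (2 * (U + 6)) 1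
  obtain ⟨n2, h2⟩ := ev_L' 10000
  obtain ⟨n3, h3⟩ := Vz_inv_small E
  refine ⟨max (max N0 n1) (max n2 (max n3 1)), fun N hN z hz hzE Sn hS1 hS2 q hq1 hq2 c hcop α hα => ?_⟩
  have a0 := h0 N (le_trans (le_trans (le_max_left _ _) (le_max_left _ _)) hN) z hzE
  have a1 := h1 N (le_trans (le_trans (le_max_right _ _) (le_max_left _ _)) hN)
  have hL := h2 N (le_trans (le_trans (le_max_left _ _) (le_max_right _ _)) hN)
  have hV := h3 N (le_trans (le_trans (le_trans (le_max_left _ _) (le_max_right _ _)) (le_max_right _ _)) hN) z hz hzE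
  have hN1 : 1 ≤ N := le_trans (le_trans (le_trans (le_max_right _ _) (le_max_right _ _)) (le_max_right _ _)) hN
  have hNr : (1 : ℝ) ≤ N := by exact_mod_cast hN1
  have hN0 : (0 : ℝ) < N := by linarith
  set L := Real.log N with hLd
  have hL0 : 0 < L := by linarith
  have hLB : 1 ≤ L ^ (U + 6) := one_le_pow₀ (by linarith)
  have hq0 : (0 : ℝ) < q := by linarith
  have hqn : 1 ≤ q := by exact_mod_cast hq0
  have hqr : (1 : ℝ) ≤ q := by exact_mod_cast hqn
  have hSN : (Sn : ℝ) ≤ N := by exact_mod_cast hS2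
  have hqN : (q : ℝ) ≤ N := by nlinarith
  have hs1 : 1 ≤ √(N : ℝ) := by rw [Real.one_le_sqrt]; exact hNr
  have hS0 : (0 : ℝ) < Sn := by linarith
  have hSn : 1 ≤ Sn := by exact_mod_cast hS0
  have hlq : Real.log q ≤ L := Real.log_le_log hq0 hqN
  have hlq0 : 0 ≤ Real.log q := Real.log_nonneg hqr
  obtain ⟨r, hr1, hr2, _⟩ := a0
  set D := (z + 1) ^ r with hD
  have hD1 : 1 ≤ D := Nat.one_le_pow _ _ (by omega)
  have hDr : (1 : ℝ) ≤ D := by exact_mod_cast hD1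
  have hD8 : (D : ℝ) ^ 8 ≤ N := by
    rw [hD]
    push_cast
    exact hr2
  have hD2 : (D : ℝ) ^ 2 ≤ √(N : ℝ) := by
    apply Real.le_sqrt_of_sq_le
    calc ((D : ℝ) ^ 2) ^ 2 = (D : ℝ) ^ 4 := by ring
      _ ≤ (D : ℝ) ^ 8 := pow_le_pow_right₀ hDr (by norm_num)
      _ ≤ N := hD8
  have hDL : (D : ℝ) * L ^ (U + 6) ≤ √(N : ℝ) := by
    apply Real.le_sqrt_of_sq_le
    rw [one_mul] at a1
    calc ((D : ℝ) * L ^ (U + 6)) ^ 2 = (D : ℝ) ^ 2 * L ^ (2 * (U + 6)) := by ring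
      _ ≤ √(N : ℝ) * √(N : ℝ) := by gcongr
      _ = N := Real.mul_self_sqrt hN0.le
  have hDS : (D : ℝ) * L ^ (U + 6) ≤ Sn := hDL.trans hS1
  have hDSn : (D : ℝ) ≤ Sn := by nlinarith
  have hV0 : 0 < (Vz z)⁻¹ := inv_pos.2 (Vz_pos z)
  set ind : ℕ → ℝ := fun n => if ∀ p ∈ pz z, ¬ p ∣ n then (1 : ℝ) else 0 with hind
  set χ : Finset ℕ → ℕ → ℝ := fun S n => if ∀ p ∈ S, p ∣ n then (1 : ℝ) else 0 with hχ
  have hpt : ∀ n : ℕ, |ind n - ∑ j ∈ range r, (-1 : ℝ) ^ j * ∑ S ∈ (pz z).powersetCard j, χ S n| ≤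
      ∑ S ∈ (pz z).powersetCard r, χ S n := by
    intro n
    have := bonf_ind (fun p n => p ∣ n) (pz z) r n
    rw [hind, hχ]
    convert this
  have hS : ∑ n ∈ Ioc N (N + Sn), ((lamz z n : ℝ) : ℂ) * ee ((n : ℝ) * α) =
      (((Vz z)⁻¹ : ℝ) : ℂ) * ∑ n ∈ Ioc N (N + Sn), ((ind n : ℝ) : ℂ) * ee ((n : ℝ) * α) := by
    rw [mul_sum]
    apply sum_congr rfl
    intro n _
    rw [hind]
    unfold lamz
    by_cases h : ∀ p ∈ pz z, ¬ p ∣ n
    · simp only [if_pos h]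
      push_cast
      ring
    · simp only [if_neg h]
      push_cast
      ring
  have hprime : ∀ j, ∀ S ∈ (pz z).powersetCard j, ∀ p ∈ S, p.Prime := fun j S hS p hp =>
    (mem_pz.1 ((mem_powersetCard.1 hS).1 hp)).2
  have hpos : ∀ j, ∀ S ∈ (pz z).powersetCard j, 1 ≤ ∏ p ∈ S, p := fun j S hS =>
    Nat.pos_of_ne_zero (prod_ne_zero_iff.2 fun p hp => (hprime j S hS p hp).ne_zero)
  -- the error
  have herr : ∑ n ∈ Ioc N (N + Sn), ∑ S ∈ (pz z).powersetCard r, χ S n ≤ Sn * (1 / L ^ (U + 2)) + D := by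
    rw [sum_comm]
    have h4 : ∀ S ∈ (pz z).powersetCard r, ∑ n ∈ Ioc N (N + Sn), χ S n ≤ Sn * ∏ p ∈ S, (1 / (p : ℝ)) + 1 := by
      intro S hS
      have h5 : ∑ n ∈ Ioc N (N + Sn), χ S n = (((Ioc N (N + Sn)).filter (fun n => ∏ p ∈ S, p ∣ n)).card : ℝ) := by
        rw [card_eq_sum_ones]
        push_cast
        rw [sum_filter]
        apply sum_congr rfl
        intro n _
        rw [hχ]
        simp only [prod_dvd_iff S (hprime r S hS)]
      rw [h5, prod_div_distrib, prod_const_one, mul_one_div]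
      refine (card_mult_Ioc N Sn (∏ p ∈ S, p) (hpos r S hS)).1.trans ?_
      push_cast
      exact le_rfl
    refine (sum_le_sum h4).trans ?_
    rw [sum_add_distrib, ← mul_sum]
    refine add_le_add ?_ ?_
    swap
    · have h5 := sum_small_le z r (fun _ => (1 : ℝ)) (fun _ => zero_le_one)
      rw [sum_range_succ] at h5
      have h6 : 0 ≤ ∑ j ∈ range r, ∑ S ∈ (pz z).powersetCard j, (1 : ℝ) :=
        sum_nonneg fun _ _ => sum_nonneg fun _ _ => zero_le_one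
      have h7 : ∑ d ∈ Icc 1 ((z + 1) ^ r), (1 : ℝ) = D := by
        rw [sum_const, Nat.card_Icc, Nat.add_sub_cancel, nsmul_eq_mul, mul_one]
      rw [h7] at h5
      linarith
    apply mul_le_mul_of_nonneg_left _ hS0.le
    have h5 := es_le (x := fun p => 1 / (p : ℝ)) (T := pz z) (fun p _ => by positivity) r
    unfold es at h5
    refine h5.trans ?_
    refine le_trans ?_ hr1
    apply Real.exp_le_exp.2
    have := sum_pz_le z
    push_cast
    linarith
  -- the main part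
  have hmain : ‖∑ n ∈ Ioc N (N + Sn), (((∑ j ∈ range r, (-1 : ℝ) ^ j * ∑ S ∈ (pz z).powersetCard j, χ S n : ℝ)) : ℂ) *
      ee ((n : ℝ) * α)‖ ≤ ∑ d ∈ Icc 1 D, KK (2 * Sn / d) (d * α) := by
    have h4 : ∑ n ∈ Ioc N (N + Sn), (((∑ j ∈ range r, (-1 : ℝ) ^ j * ∑ S ∈ (pz z).powersetCard j, χ S n : ℝ)) : ℂ) *
        ee ((n : ℝ) * α) = ∑ j ∈ range r, (-1 : ℂ) ^ j * ∑ S ∈ (pz z).powersetCard j,
          ∑ n ∈ Ioc N (N + Sn), ((χ S n : ℝ) : ℂ) * ee ((n : ℝ) * α) := by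
      push_cast
      simp only [sum_mul, mul_sum]
      rw [sum_comm]
      apply sum_congr rfl
      intro j _
      rw [sum_comm]
      apply sum_congr rfl
      intro S _
      apply sum_congr rfl
      intro n _
      ring
    rw [h4]
    refine (norm_sum_le _ _).trans ?_
    have h5 : ∀ j ∈ range r, ‖(-1 : ℂ) ^ j * ∑ S ∈ (pz z).powersetCard j,
          ∑ n ∈ Ioc N (N + Sn), ((χ S n : ℝ) : ℂ) * ee ((n : ℝ) * α)‖ ≤
        ∑ S ∈ (pz z).powersetCard j, KK (2 * Sn / ((∏ p ∈ S, p : ℕ) : ℝ)) (((∏ p ∈ S, p : ℕ) : ℝ) * α) := by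
      intro j hj
      rw [norm_mul, norm_pow, norm_neg, norm_one, one_pow, one_mul]
      refine (norm_sum_le _ _).trans (sum_le_sum fun S hS => ?_)
      set d := ∏ p ∈ S, p with hd
      have hd1 : 1 ≤ d := hpos j S hS
      have hd0 : (0 : ℝ) < d := by exact_mod_cast hd1
      have h6 : ∑ n ∈ Ioc N (N + Sn), ((χ S n : ℝ) : ℂ) * ee ((n : ℝ) * α) =
          ∑ n ∈ (Ioc N (N + Sn)).filter (fun n => d ∣ n), ee ((n : ℝ) * α) := by
        rw [sum_filter]
        apply sum_congr rfl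
        intro n _
        rw [hχ]
        simp only [prod_dvd_iff S (hprime j S hS)]
        rw [← hd]
        split_ifs <;> simp
      rw [h6, sum_mult_Ioc N (N + Sn) d hd1]
      have h7 : ∀ m ∈ Ioc (N / d) ((N + Sn) / d), ee (((d * m : ℕ) : ℝ) * α) = ee ((m : ℝ) * (d * α)) := by
        intro m _; congr 1; push_cast; ring
      rw [sum_congr rfl h7]
      have h8 : Ioc (N / d) ((N + Sn) / d) = Ico (N / d + 1) ((N + Sn) / d + 1) := by
        ext x; rw [mem_Ioc, mem_Ico]; omega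
      rw [h8]
      apply geo_bound _ _ (Nat.add_le_add_right (Nat.div_le_div_right (Nat.le_add_right N Sn)) 1)
      push_cast
      have h9 := (card_mult_Ioc N Sn d hd1).2
      have hdD : d ≤ D := by
        rw [hd, hD]
        refine prod_le_pow S z r ((mem_powersetCard.1 hS).1) ?_
        rw [(mem_powersetCard.1 hS).2]
        exact (mem_range.1 hj).le
      have hdS : (d : ℝ) ≤ Sn := (by exact_mod_cast hdD : (d : ℝ) ≤ D).trans hDSn
      have h10 : 1 ≤ (Sn : ℝ) / d := by rwa [le_div_iff₀ hd0, one_mul]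
      have h11 : 2 * (Sn : ℝ) / d = 2 * (Sn / d) := by ring
      rw [h11]
      linarith
    refine (sum_le_sum h5).trans ?_
    have h6 := sum_small_le z r (fun d => KK (2 * Sn / (d : ℝ)) ((d : ℝ) * α)) (fun d => KK_nonneg (by positivity) _)
    rw [sum_range_succ] at h6
    have h7 : 0 ≤ ∑ S ∈ (pz z).powersetCard r, KK (2 * Sn / ((∏ p ∈ S, p : ℕ) : ℝ)) (((∏ p ∈ S, p : ℕ) : ℝ) * α) :=
      sum_nonneg fun S _ => KK_nonneg (by positivity) _
    linarith
  have htot : ‖∑ n ∈ Ioc N (N + Sn), ((ind n : ℝ) : ℂ) * ee ((n : ℝ) * α)‖ ≤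
      (Sn * (1 / L ^ (U + 2)) + D) + ∑ d ∈ Icc 1 D, KK (2 * Sn / d) (d * α) := by
    have h4 : ∑ n ∈ Ioc N (N + Sn), ((ind n : ℝ) : ℂ) * ee ((n : ℝ) * α) =
        ∑ n ∈ Ioc N (N + Sn), ((ind n - ∑ j ∈ range r, (-1 : ℝ) ^ j * ∑ S ∈ (pz z).powersetCard j, χ S n : ℝ) : ℂ) * ee ((n : ℝ) * α) +
        ∑ n ∈ Ioc N (N + Sn), (((∑ j ∈ range r, (-1 : ℝ) ^ j * ∑ S ∈ (pz z).powersetCard j, χ S n : ℝ)) : ℂ) * ee ((n : ℝ) * α) := by
      rw [← sum_add_distrib]
      apply sum_congr rfl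
      intro n _
      push_cast
      ring
    rw [h4]
    refine (norm_add_le _ _).trans (add_le_add ?_ hmain)
    refine le_trans ?_ herr
    refine (norm_sum_le _ _).trans (sum_le_sum fun n _ => ?_)
    rw [norm_mul, norm_ee, mul_one, Complex.norm_real, Real.norm_eq_abs]
    exact hpt n
  have htI := typeI_lin hqn hcop hα Sn D hSn hD1
  rw [hS, norm_mul, Complex.norm_real, Real.norm_of_nonneg hV0.le]
  have hlog2 : (Nat.log 2 D : ℝ) ≤ 2 * L := by
    have h4 : (2 : ℝ) ^ Nat.log 2 D ≤ D := by exact_mod_cast Nat.pow_log_le_self 2 (by omega : D ≠ 0)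
    have h5 : (D : ℝ) ≤ N := hDSn.trans hSN
    have h6 := Real.log_le_log (by positivity) (h4.trans h5)
    rw [Real.log_pow] at h6
    have := Real.log_two_gt_d9
    have h7 : (0 : ℝ) ≤ Nat.log 2 D := Nat.cast_nonneg _
    rw [← hLd] at h6
    nlinarith
  have hDS' : (D : ℝ) ≤ Sn / L ^ (U + 6) := by rwa [le_div_iff₀ (by positivity)]
  have hqS' : (q : ℝ) ≤ Sn / L ^ (U + 6) := by rwa [le_div_iff₀ (by positivity)]
  have hNq : (Sn : ℝ) / q ≤ Sn / L ^ (U + 6) := div_le_div_of_nonneg_left hS0.le (by positivity) hq1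
  have hP : 0 ≤ (Sn : ℝ) / L ^ (U + 6) := by positivity
  calc (Vz z)⁻¹ * ‖∑ n ∈ Ioc N (N + Sn), ((ind n : ℝ) : ℂ) * ee ((n : ℝ) * α)‖
      ≤ L * ((Sn * (1 / L ^ (U + 2)) + Sn / L ^ (U + 6)) + 600 * (2 * L + 1) * (3 * (Sn / L ^ (U + 6))) * (1 + L)) := by
        apply mul_le_mul hV _ (norm_nonneg _) hL0.le
        refine htot.trans (add_le_add (add_le_add le_rfl hDS') (htI.trans ?_))
        gcongr
        linarith
    _ = (1 / L + 1 / L ^ 5 + 1800 * (2 * L + 1) * (1 + L) / L ^ 5) * (Sn / L ^ U) := by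
        field_simp
        ring
    _ ≤ 1 * (Sn / L ^ U) := by
        apply mul_le_mul_of_nonneg_right _ (by positivity)
        have h4 : 1 / L ≤ 1 / 10000 := one_div_le_one_div_of_le (by norm_num) hL
        have hL5 : L ≤ L ^ 5 := by
          calc L = L ^ 1 := (pow_one _).symm
            _ ≤ L ^ 5 := pow_le_pow_right₀ (by linarith) (by norm_num)
        have h4' : 1 / L ^ 5 ≤ 1 / L := one_div_le_one_div_of_le hL0 hL5
        have h5 : 1800 * (2 * L + 1) * (1 + L) / L ^ 5 ≤ 1 / 2 := by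
          rw [div_le_iff₀ (by positivity)]
          have h6 : (10000 : ℝ) * L ^ 2 ≤ L ^ 3 := by nlinarith [sq_nonneg L]
          have h7 : (10000 : ℝ) * L ^ 3 ≤ L ^ 4 := by nlinarith [pow_pos hL0 3]
          have h8 : (10000 : ℝ) * L ^ 4 ≤ L ^ 5 := by nlinarith [pow_pos hL0 4]
          nlinarith [sq_nonneg L]
        linarith
    _ = Sn / L ^ U := one_mul _

end Pool.Agent.Run7.h270.PQ
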