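import Pool.Agent.Run7.h385.PQ.Stm
import Pool.Agent.H373R2.T7.LamZ2

/-!
# Project PQ (helper385), piece SUPT: both signs, supremum over the frequency
-/

set_option autoImplicit false

namespace Pool.Agent.Run7.h270.PQ

open Finset
open Pool.Agent.H373R2.T7
open Pool.Agent.H807R2.Dav
open Pool.Agent.Run7.h385.PQ

/-- the norm of the exponential sum over the window of length `R` after `v` -/
noncomputable def TT (z R v : ℕ) (θ : ℝ) : ℝ :=
  ‖∑ n ∈ Ioc v (v + R), ((gz z n : ℝ) : ℂ) * ee ((n : ℝ) * θ)‖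

lemma TT_nonneg (z R v : ℕ) (θ : ℝ) : 0 ≤ TT z R v θ := norm_nonneg _

lemma TT_bdd (z R v : ℕ) : BddAbove (Set.range (TT z R v)) := by
  refine ⟨∑ n ∈ Ioc v (v + R), |gz z n|, ?_⟩
  rintro _ ⟨θ, rfl⟩
  unfold TT
  refine (norm_sum_le _ _).trans (sum_le_sum fun n _ => ?_)
  rw [norm_mul, norm_ee, mul_one, Complex.norm_real, Real.norm_eq_abs]

/-- the supremum -/
noncomputable def MT (z R v : ℕ) : ℝ := ⨆ θ, TT z R v θ

lemma TT_le (z R v : ℕ) (θ : ℝ) : TT z R v θ ≤ MT z R v := le_ciSup (TT_bdd z R v) θ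

lemma MT_nonneg (z R v : ℕ) : 0 ≤ MT z R v := (TT_nonneg z R v 0).trans (TT_le z R v 0)

lemma MT_ex (z R v : ℕ) : ∃ θ, MT z R v ≤ TT z R v θ + 1 := by
  have h : MT z R v - 1 < MT z R v := by linarith
  obtain ⟨θ, hθ⟩ := exists_lt_of_lt_ciSup h
  exact ⟨θ, by linarith⟩

lemma ee_add' (x y : ℝ) : ee (x + y) = ee x * ee y := by
  unfold ee
  rw [← Complex.exp_add]
  congr 1
  push_cast
  ring

/-- windows around a positive number -/
lemma win_pos (z S : ℕ) (v : ℤ) (hv : (S : ℤ) + 1 < v) (θ : ℝ) :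
    ‖∑ m ∈ Icc (-(S : ℤ)) S, ((gz z (v + m).natAbs : ℝ) : ℂ) * ee ((m : ℝ) * θ)‖ =
      TT z (2 * S + 1) (v.natAbs - (S + 1)) θ := by
  have h1 : ∑ m ∈ Icc (-(S : ℤ)) S, ((gz z (v + m).natAbs : ℝ) : ℂ) * ee ((m : ℝ) * θ) =
      ee (-(v : ℝ) * θ) * ∑ n ∈ Ioc (v.natAbs - (S + 1)) (v.natAbs - (S + 1) + (2 * S + 1)), ((gz z n : ℝ) : ℂ) * ee ((n : ℝ) * θ) := by
    rw [mul_sum]
    refine sum_bij (fun m _ => (v + m).natAbs) ?_ ?_ ?_ ?_
    · intro m hm
      rw [mem_Icc] at hm
      rw [mem_Ioc]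
      omega
    · intro a ha b hb hab
      rw [mem_Icc] at ha hb
      omega
    · intro n hn
      rw [mem_Ioc] at hn
      refine ⟨(n : ℤ) - v, ?_, ?_⟩
      · rw [mem_Icc]
        omega
      · omega
    · intro m hm
      rw [mem_Icc] at hm
      have e1 : (((v + m).natAbs : ℕ) : ℝ) = (v : ℝ) + m := by
        have h2 : (((v + m).natAbs : ℕ) : ℤ) = v + m := by omega
        calc (((v + m).natAbs : ℕ) : ℝ) = ((((v + m).natAbs : ℕ) : ℤ) : ℝ) := (Int.cast_natCast _).symm
          _ = ((v + m : ℤ) : ℝ) := by rw [h2]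
          _ = (v : ℝ) + m := by push_cast; rfl
      rw [e1]
      have e2 : ee ((m : ℝ) * θ) = ee (-(v : ℝ) * θ) * ee (((v : ℝ) + m) * θ) := by
        rw [← ee_add']
        congr 1
        ring
      rw [e2]
      ring
  rw [h1, norm_mul, norm_ee, one_mul]
  rfl

/-- windows around a negative number -/
lemma win_neg (z S : ℕ) (v : ℤ) (hv : v < -((S : ℤ) + 1)) (θ : ℝ) :
    ‖∑ m ∈ Icc (-(S : ℤ)) S, ((gz z (v + m).natAbs : ℝ) : ℂ) * ee ((m : ℝ) * θ)‖ =
      TT z (2 * S + 1) (v.natAbs - (S + 1)) (-θ) := by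
  rw [← Int.natAbs_neg v, ← win_pos z S (-v) (by omega) (-θ)]
  congr 1
  refine sum_bij (fun m _ => -m) ?_ ?_ ?_ ?_
  · intro m hm
    rw [mem_Icc] at hm ⊢
    omega
  · intro a _ b _ hab
    omega
  · intro n hn
    rw [mem_Icc] at hn
    exact ⟨-n, by rw [mem_Icc]; omega, by omega⟩
  · intro m _
    have e1 : (-v + -m).natAbs = (v + m).natAbs := by omega
    rw [e1]
    congr 2
    push_cast
    ring

lemma gz_le {z n K : ℕ} (hn : n ≤ K) (_hK : 1 ≤ K) (hV : (Vz z)⁻¹ ≤ Real.log K) : |gz z n| ≤ 2 * Real.log K := by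
  have h1 : ArithmeticFunction.vonMangoldt n ≤ Real.log K := by
    refine ArithmeticFunction.vonMangoldt_le_log.trans ?_
    rcases Nat.eq_zero_or_pos n with h | h
    · rw [h]
      simp only [Nat.cast_zero, Real.log_zero]
      exact Real.log_natCast_nonneg K
    · exact Real.log_le_log (by exact_mod_cast h) (by exact_mod_cast hn)
  have h2 : 0 ≤ ArithmeticFunction.vonMangoldt n := ArithmeticFunction.vonMangoldt_nonneg
  have hV0 : 0 < (Vz z)⁻¹ := inv_pos.2 (Vz_pos z)
  have h3 : 0 ≤ lamz z n ∧ lamz z n ≤ (Vz z)⁻¹ := by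
    unfold lamz
    split_ifs
    · exact ⟨hV0.le, le_rfl⟩
    · exact ⟨le_rfl, hV0.le⟩
  unfold gz
  rw [abs_le]
  constructor <;> linarith [h3.1, h3.2]

/-- **SUPT** -/
theorem t_SUPT (h : S_SUPA) : S_SUPT := by
  intro U
  obtain ⟨B', hB'⟩ := h (U + 2)
  refine ⟨B' + U + 6, fun E => ?_⟩
  obtain ⟨K1, hK1⟩ := hB' E
  obtain ⟨K2, hK2⟩ := Vz_inv_small E
  obtain ⟨K3, hK3⟩ := ev_L' 10
  refine ⟨max (max K1 K2) (max K3 1), ?_⟩
  intro K hK z hz1 hz2 S hS1 hS2
  have a1 := hK1 K (le_trans (le_trans (le_max_left _ _) (le_max_left _ _)) hK)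
  have a2 := hK2 K (le_trans (le_trans (le_max_right _ _) (le_max_left _ _)) hK)
  have hL := hK3 K (le_trans (le_trans (le_max_left _ _) (le_max_right _ _)) hK)
  have hK1' : 1 ≤ K := le_trans (le_trans (le_max_right _ _) (le_max_right _ _)) hK
  have hKr : (1 : ℝ) ≤ K := by exact_mod_cast hK1'
  set L := Real.log K with hLd
  have hL1 : 1 ≤ L := by linarith
  have hL0 : 0 < L := by linarith
  have hLB : L ^ B' ≤ L ^ (B' + U + 6) := pow_le_pow_right₀ hL1 (by omega)
  have hLU : L ^ (U + 6) ≤ L ^ (B' + U + 6) := pow_le_pow_right₀ hL1 (by omega)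
  have hLB1 : L ^ (B' + 1) ≤ L ^ (B' + U + 6) := pow_le_pow_right₀ hL1 (by omega)
  have hK23 : 1 ≤ (K : ℝ) ^ (2 / 3 : ℝ) := Real.one_le_rpow hKr (by norm_num)
  have hLBpos : 0 < L ^ (B' + U + 6) := by positivity
  have hSL : L ^ (B' + U + 6) ≤ S := by
    refine le_trans ?_ hS1
    nlinarith
  have hSU : L ^ (U + 6) ≤ S := hLU.trans hSL
  have hS1r : (1 : ℝ) ≤ S := (one_le_pow₀ hL1).trans hSL
  have hS1n : 1 ≤ S := by exact_mod_cast hS1r
  have hz1' : 1 ≤ z := by
    have : (1 : ℝ) ≤ z := (one_le_pow₀ hL1).trans hz1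
    exact_mod_cast this
  have hV := a2 z hz1' hz2
  -- the frequencies
  choose θ hθ using fun v => MT_ex z (2 * S + 1) v
  have hsup := a1 z (hLB.trans hz1) hz2 (2 * S + 1) (by
      have h1 : (K : ℝ) ^ (2 / 3 : ℝ) * L ^ B' ≤ (K : ℝ) ^ (2 / 3 : ℝ) * L ^ (B' + U + 6) :=
        mul_le_mul_of_nonneg_left hLB (by positivity)
      push_cast
      linarith) (by
      push_cast
      have h1 : (2 * (S : ℝ) + 1) ≤ S * L := by nlinarith
      calc (2 * (S : ℝ) + 1) * L ^ B' ≤ (S * L) * L ^ B' := mul_le_mul_of_nonneg_right h1 (by positivity)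
        _ = S * L ^ (B' + 1) := by ring
        _ ≤ S * L ^ (B' + U + 6) := mul_le_mul_of_nonneg_left hLB1 (by positivity)
        _ ≤ K := hS2) θ
  have hsumM : ∑ v ∈ Icc 1 K, MT z (2 * S + 1) v ≤ K * (2 * S + 1) / L ^ (U + 2) + K := by
    calc ∑ v ∈ Icc 1 K, MT z (2 * S + 1) v ≤ ∑ v ∈ Icc 1 K, (TT z (2 * S + 1) v (θ v) + 1) :=
          sum_le_sum fun v _ => hθ v
      _ = ∑ v ∈ Icc 1 K, TT z (2 * S + 1) v (θ v) + K := by
          rw [sum_add_distrib, sum_const, Nat.card_Icc, Nat.add_sub_cancel, nsmul_eq_mul, mul_one]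
      _ ≤ _ := by
          have h1 : ∑ v ∈ Icc 1 K, TT z (2 * S + 1) v (θ v) ≤ K * (2 * S + 1) / L ^ (U + 2) := by
            unfold TT
            refine hsup.trans (le_of_eq ?_)
            push_cast
            ring
          linarith
  have hSK : (2 * (S : ℝ) + 1) ≤ K := by
    have h1 : (S : ℝ) * L ≤ S * L ^ (B' + U + 6) := by
      apply mul_le_mul_of_nonneg_left _ (by positivity)
      calc L = L ^ 1 := (pow_one _).symm
        _ ≤ L ^ (B' + U + 6) := pow_le_pow_right₀ hL1 (by omega)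
    nlinarith
  have hSKn : 2 * S + 1 ≤ K := by exact_mod_cast hSK
  set c0 : ℝ := (2 * S + 1) * (2 * L) with hc0
  have hc00 : 0 ≤ c0 := by positivity
  refine ⟨fun v => if |v| ≤ (S : ℤ) + 1 then c0 else MT z (2 * S + 1) (v.natAbs - (S + 1)), ?_, ?_, ?_⟩
  · intro v
    simp only
    split_ifs
    · exact hc00
    · exact MT_nonneg _ _ _
  · intro v hv ϑ
    simp only
    split_ifs with hvs
    · refine (norm_sum_le _ _).trans ?_
      have h1 : ∀ m ∈ Icc (-(S : ℤ)) S, ‖((gz z (v + m).natAbs : ℝ) : ℂ) * ee ((m : ℝ) * ϑ)‖ ≤ 2 * L := by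
        intro m hm
        rw [mem_Icc] at hm
        rw [norm_mul, norm_ee, mul_one, Complex.norm_real, Real.norm_eq_abs]
        rw [abs_le] at hvs
        exact gz_le (by omega) hK1' hV
      refine (sum_le_sum h1).trans (le_of_eq ?_)
      rw [sum_const, Int.card_Icc, nsmul_eq_mul, hc0]
      have : ((S : ℤ) + 1 - -(S : ℤ)).toNat = 2 * S + 1 := by omega
      rw [this]
      push_cast
      ring
    · rcases lt_or_ge v 0 with h0 | h0
      · have hv' : v < -((S : ℤ) + 1) := by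
          by_contra hcon
          apply hvs
          rw [abs_le]
          omega
        rw [win_neg z S v hv' ϑ]
        exact TT_le _ _ _ _
      · have hv' : (S : ℤ) + 1 < v := by
          by_contra hcon
          apply hvs
          rw [abs_le]
          omega
        rw [win_pos z S v hv' ϑ]
        exact TT_le _ _ _ _
  · -- the sum
    have h1 : ∀ v ∈ Icc (-(K : ℤ)) K, (if |v| ≤ (S : ℤ) + 1 then c0 else MT z (2 * S + 1) (v.natAbs - (S + 1))) ≤
        (if |v| ≤ (S : ℤ) + 1 then c0 else 0) +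
        ((if (S : ℤ) + 1 < v then MT z (2 * S + 1) (v.natAbs - (S + 1)) else 0) +
        (if v < -((S : ℤ) + 1) then MT z (2 * S + 1) (v.natAbs - (S + 1)) else 0)) := by
      intro v _
      have h0 := MT_nonneg z (2 * S + 1) (v.natAbs - (S + 1))
      by_cases hvs : |v| ≤ (S : ℤ) + 1
      · rw [if_pos hvs, if_pos hvs]
        have e1 : 0 ≤ (if (S : ℤ) + 1 < v then MT z (2 * S + 1) (v.natAbs - (S + 1)) else 0) := by
          split_ifs <;> linarith
        have e2 : 0 ≤ (if v < -((S : ℤ) + 1) then MT z (2 * S + 1) (v.natAbs - (S + 1)) else 0) := by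
          split_ifs <;> linarith
        linarith
      · rw [if_neg hvs, if_neg hvs]
        rcases lt_or_ge v 0 with hv0 | hv0
        · have hv' : v < -((S : ℤ) + 1) := by
            by_contra hcon
            apply hvs
            rw [abs_le]
            omega
          rw [if_pos hv', if_neg (by omega)]
          linarith
        · have hv' : (S : ℤ) + 1 < v := by
            by_contra hcon
            apply hvs
            rw [abs_le]
            omega
          rw [if_pos hv', if_neg (by omega)]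
          linarith
    refine (sum_le_sum h1).trans ?_
    rw [sum_add_distrib, sum_add_distrib, ← sum_filter, ← sum_filter, ← sum_filter]
    have g1 : ∑ v ∈ (Icc (-(K : ℤ)) K).filter (fun v => |v| ≤ (S : ℤ) + 1), c0 ≤ (2 * S + 3) * c0 := by
      rw [sum_const, nsmul_eq_mul]
      apply mul_le_mul_of_nonneg_right _ hc00
      have h2 : (Icc (-(K : ℤ)) K).filter (fun v => |v| ≤ (S : ℤ) + 1) ⊆ Icc (-((S : ℤ) + 1)) ((S : ℤ) + 1) := by
        intro v hv
        rw [mem_filter, abs_le] at hv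
        rw [mem_Icc]
        exact hv.2
      have h3 := card_le_card h2
      rw [Int.card_Icc] at h3
      have h4 : ((S : ℤ) + 1 + 1 - -((S : ℤ) + 1)).toNat = 2 * S + 3 := by omega
      rw [h4] at h3
      exact_mod_cast h3
    have g2 : ∀ s : Finset ℤ, (∀ v ∈ s, S + 1 < v.natAbs ∧ v.natAbs ≤ K) → (∀ v ∈ s, ∀ w ∈ s, v.natAbs = w.natAbs → v = w) →
        ∑ v ∈ s, MT z (2 * S + 1) (v.natAbs - (S + 1)) ≤ ∑ v ∈ Icc 1 K, MT z (2 * S + 1) v := by
      intro s hs hinj
      have h2 : ∑ v ∈ s, MT z (2 * S + 1) (v.natAbs - (S + 1)) =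
          ∑ w ∈ s.image (fun v : ℤ => v.natAbs - (S + 1)), MT z (2 * S + 1) w := by
        rw [sum_image]
        intro v hv w hw hvw
        have h3 := (hs v hv).1
        have h4 := (hs w hw).1
        simp only at hvw
        exact hinj v hv w hw (by omega)
      rw [h2]
      apply sum_le_sum_of_subset_of_nonneg
      · intro w hw
        rw [mem_image] at hw
        obtain ⟨v, hv, rfl⟩ := hw
        have := hs v hv
        rw [mem_Icc]
        omega
      · intro w _ _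
        exact MT_nonneg _ _ _
    have g3 := g2 ((Icc (-(K : ℤ)) K).filter (fun v => (S : ℤ) + 1 < v))
      (fun v hv => by rw [mem_filter, mem_Icc] at hv; omega)
      (fun v hv w hw hvw => by rw [mem_filter] at hv hw; omega)
    have g4 := g2 ((Icc (-(K : ℤ)) K).filter (fun v => v < -((S : ℤ) + 1)))
      (fun v hv => by rw [mem_filter, mem_Icc] at hv; omega)
      (fun v hv w hw hvw => by rw [mem_filter] at hv hw; omega)
    have hP : 0 ≤ (K : ℝ) * S / L ^ U := by positivity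
    have k1 : (2 * (S : ℝ) + 3) * c0 ≤ (K : ℝ) * S / L ^ U * (30 / L ^ 5) := by
      have e1 : (2 * (S : ℝ) + 3) * c0 ≤ (5 * S) * ((3 * S) * (2 * L)) := by
        rw [hc0]
        apply mul_le_mul (by linarith) _ (by positivity) (by positivity)
        apply mul_le_mul_of_nonneg_right (by linarith) (by positivity)
      have e2 : (S : ℝ) * L ^ (U + 6) ≤ K := (mul_le_mul_of_nonneg_left hLU (by positivity)).trans hS2
      have e3 : (K : ℝ) * S / L ^ U * (30 / L ^ 5) = 30 * S * L * (K / L ^ (U + 6)) := by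
        have e5 : L ^ (U + 6) = L ^ U * L ^ 5 * L := by ring
        rw [e5]
        field_simp
      rw [e3]
      have e4 : (S : ℝ) ≤ K / L ^ (U + 6) := by rwa [le_div_iff₀ (by positivity)]
      calc (2 * (S : ℝ) + 3) * c0 ≤ (5 * S) * ((3 * S) * (2 * L)) := e1
        _ = 30 * S * L * S := by ring
        _ ≤ 30 * S * L * (K / L ^ (U + 6)) := mul_le_mul_of_nonneg_left e4 (by positivity)
    have k2 : (K : ℝ) * (2 * S + 1) / L ^ (U + 2) ≤ (K : ℝ) * S / L ^ U * (3 / L ^ 2) := by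
      have e1 : (K : ℝ) * S / L ^ U * (3 / L ^ 2) = K * (3 * S) / L ^ (U + 2) := by
        field_simp
        ring
      rw [e1]
      apply div_le_div_of_nonneg_right _ (by positivity)
      apply mul_le_mul_of_nonneg_left _ (by positivity)
      linarith
    have k3 : (K : ℝ) ≤ (K : ℝ) * S / L ^ U * (1 / L ^ 6) := by
      have e1 : (K : ℝ) * S / L ^ U * (1 / L ^ 6) = K * (S / L ^ (U + 6)) := by
        field_simp
        ring
      rw [e1]
      have e2 : 1 ≤ (S : ℝ) / L ^ (U + 6) := by rwa [le_div_iff₀ (by positivity), one_mul]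
      nlinarith
    have q1 : 30 / L ^ 5 ≤ 1 / 100 := by
      rw [div_le_iff₀ (by positivity)]
      have : (10 : ℝ) ^ 5 ≤ L ^ 5 := pow_le_pow_left₀ (by norm_num) hL 5
      linarith
    have q2 : 3 / L ^ 2 ≤ 3 / 100 := by
      rw [div_le_iff₀ (by positivity)]
      have : (10 : ℝ) ^ 2 ≤ L ^ 2 := pow_le_pow_left₀ (by norm_num) hL 2
      linarith
    have q3 : 1 / L ^ 6 ≤ 1 / 100 := by
      rw [div_le_iff₀ (by positivity)]
      have : (10 : ℝ) ^ 6 ≤ L ^ 6 := pow_le_pow_left₀ (by norm_num) hL 6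
      linarith
    have t1 : (K : ℝ) * S / L ^ U * (30 / L ^ 5) ≤ (K : ℝ) * S / L ^ U * (1 / 100) := mul_le_mul_of_nonneg_left q1 hP
    have t2 : (K : ℝ) * S / L ^ U * (3 / L ^ 2) ≤ (K : ℝ) * S / L ^ U * (3 / 100) := mul_le_mul_of_nonneg_left q2 hP
    have t3 : (K : ℝ) * S / L ^ U * (1 / L ^ 6) ≤ (K : ℝ) * S / L ^ U * (1 / 100) := mul_le_mul_of_nonneg_left q3 hP
    linarith

end Pool.Agent.Run7.h270.PQ
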